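import Pool.Agent.W458.MF.Stm2
import Pool.Agent.W552.Frob

/-!
# MF-SPAN: the cohomology of products is spanned by monomials
-/

set_option autoImplicit false

open CategoryTheory AlgebraicGeometry Polynomial

universe u v w

namespace Pool.Agent.W40.MF

open Pool.Agent.H914 Pool.Agent.W534 Pool.Agent.W521.Frob VarClass Obj WeilCohomology
  Pool.Agent.H281R3.HT Pool.Agent.W458.MF

variable {k : Type u} [Field k] {𝒱 : VarClass k} {ops : CycleOps 𝒱}
  {W : WeilCohomology.{u, v} ops} {Y : 𝒱.Obj} {I : Type w} {P : I → Piece W Y}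

/-- The pull-back of a letter. -/
def pullLetter {Z Z' : 𝒱.Obj} (f : Z' ⟶ Z) (a : Letter P Z) : Letter P Z' :=
  ⟨a.i, a.v, a.mem, f ≫ a.g⟩

theorem pullLetter_val {Z Z' : 𝒱.Obj} (f : Z' ⟶ Z) (a : Letter P Z) :
    (pullLetter f a).val = W.map f a.val := by
  unfold Letter.val pullLetter
  exact W.map_comp _ _ _

theorem isMono_map {Z Z' : 𝒱.Obj} (f : Z' ⟶ Z) {c : W.H Z} (hc : IsMono P Z c) :
    IsMono P Z' (W.map f c) := by
  obtain ⟨l, T, g, d, y, hT, hy, rfl⟩ := hc
  refine ⟨l.map (pullLetter f), T, f ≫ g, d, y, hT, hy, ?_⟩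
  rw [map_mul, map_list_prod, List.map_map, List.map_map, W.map_comp]
  congr 2
  apply List.map_congr_left
  intro a _
  exact (pullLetter_val f a).symm

theorem prod_hom (hP : ∀ i, (P i).sub ≤ W.gr (P i).obj (P i).obj.dim) {Z : 𝒱.Obj}
    (l : List (Letter P Z)) : ∃ d : ℕ, (l.map Letter.val).prod ∈ W.gr Z d := by
  induction l with
  | nil => exact ⟨0, W.one_mem Z⟩
  | cons a l ih =>
    obtain ⟨d, hd⟩ := ih
    refine ⟨(P a.i).obj.dim + d, ?_⟩
    rw [List.map_cons, List.prod_cons]
    exact W.mul_mem (W.map_mem _ (hP a.i a.mem)) hd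

theorem isMono_mul (hP : ∀ i, (P i).sub ≤ W.gr (P i).obj (P i).obj.dim) {Z : 𝒱.Obj}
    {a b : W.H Z} (ha : IsMono P Z a) (hb : IsMono P Z b) :
    a * b ∈ Submodule.span W.K {c | IsMono P Z c} := by
  obtain ⟨l, T, g, d, y, hT, hy, rfl⟩ := ha
  obtain ⟨l', T', g', d', y', hT', hy', rfl⟩ := hb
  obtain ⟨e, he⟩ := prod_hom hP l'
  have h1 : W.map g y * (l'.map Letter.val).prod =
      (-1 : W.K) ^ (d * e) • ((l'.map Letter.val).prod * W.map g y) :=
    W.comm (W.map_mem g hy) he
  have h2 : W.map g y * W.map g' y' =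
      W.map (Obj.lift g g') (W.map (fst T T') y * W.map (snd T T') y') := by
    rw [map_mul, ← W.map_comp, ← W.map_comp, Obj.lift_fst, Obj.lift_snd]
  have h3 : (l.map Letter.val).prod * W.map g y * ((l'.map Letter.val).prod * W.map g' y') =
      (-1 : W.K) ^ (d * e) • (((l ++ l').map Letter.val).prod *
        W.map (Obj.lift g g') (W.map (fst T T') y * W.map (snd T T') y')) := by
    rw [List.map_append, List.prod_append, ← h2]
    calc (l.map Letter.val).prod * W.map g y * ((l'.map Letter.val).prod * W.map g' y')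
        = (l.map Letter.val).prod * (W.map g y * (l'.map Letter.val).prod) * W.map g' y' := by
          simp only [mul_assoc]
      _ = _ := by
          rw [h1]
          simp only [mul_assoc, mul_smul_comm, smul_mul_assoc]
  rw [h3]
  apply Submodule.smul_mem
  apply Submodule.subset_span
  exact ⟨l ++ l', T.prod T', Obj.lift g g', d + d', _, IsProductOf.prod hT hT',
    W.mul_mem (W.map_mem _ hy) (W.map_mem _ hy'), rfl⟩

theorem span_mul (hP : ∀ i, (P i).sub ≤ W.gr (P i).obj (P i).obj.dim) {Z : 𝒱.Obj}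
    {a b : W.H Z} (ha : a ∈ Submodule.span W.K {c | IsMono P Z c})
    (hb : b ∈ Submodule.span W.K {c | IsMono P Z c}) :
    a * b ∈ Submodule.span W.K {c | IsMono P Z c} := by
  induction ha using Submodule.span_induction with
  | mem a ha =>
    induction hb using Submodule.span_induction with
    | mem b hb => exact isMono_mul hP ha hb
    | zero => rw [mul_zero]; exact Submodule.zero_mem _
    | add c c' _ _ h h' => rw [mul_add]; exact Submodule.add_mem _ h h'
    | smul t c _ h => rw [mul_smul_comm]; exact Submodule.smul_mem _ _ h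
  | zero => rw [zero_mul]; exact Submodule.zero_mem _
  | add x x' _ _ h h' => rw [add_mul]; exact Submodule.add_mem _ h h'
  | smul t x _ h => rw [smul_mul_assoc]; exact Submodule.smul_mem _ _ h

theorem span_map {Z Z' : 𝒱.Obj} (f : Z' ⟶ Z) {a : W.H Z}
    (ha : a ∈ Submodule.span W.K {c | IsMono P Z c}) :
    W.map f a ∈ Submodule.span W.K {c | IsMono P Z' c} := by
  induction ha using Submodule.span_induction with
  | mem a ha => exact Submodule.subset_span (isMono_map f ha)
  | zero => rw [map_zero]; exact Submodule.zero_mem _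
  | add x x' _ _ h h' => rw [map_add]; exact Submodule.add_mem _ h h'
  | smul t x _ h => rw [map_smul]; exact Submodule.smul_mem _ _ h

theorem span_Y (c : W.H Y) : c ∈ Submodule.span W.K {c | IsMono P Y c} := by
  have hsum : ∑ i ∈ Finset.range (2 * Y.dim + 1), H914.proj (W.isInternal Y) i c = c := by
    have := sum_proj (W.isInternal Y) (N := 2 * Y.dim + 1)
      (fun i hi => W.gr_eq_bot Y i (by omega))
    have h2 := congrArg (fun F => F c) this
    simpa [LinearMap.sum_apply] using h2
  rw [← hsum]
  apply Submodule.sum_mem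
  intro i _
  apply Submodule.subset_span
  refine ⟨[], Y, 𝟙 Y, i, H914.proj (W.isInternal Y) i c, IsProductOf.base rfl,
    proj_mem _ _ _, ?_⟩
  rw [List.map_nil, List.prod_nil, one_mul, W.map_id]

theorem span : St_SPAN.{u, v, w} := by
  intro k _ 𝒱 ops W Y I P hP hgen Z hZ
  induction hZ with
  | base hX =>
    intro c
    rcases hX with hX | ⟨i, rfl⟩
    · obtain rfl := Set.mem_singleton_iff.1 hX
      exact span_Y c
    · obtain ⟨y, hy⟩ := hgen i c
      have h1 : c = W.map (P i).mor y + (c - W.map (P i).mor y) := by abel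
      rw [h1]
      refine Submodule.add_mem _ (span_map _ (span_Y y)) (Submodule.subset_span ?_)
      refine ⟨[⟨i, _, hy, 𝟙 _⟩], Y, (P i).mor, 0, 1, IsProductOf.base rfl, W.one_mem Y, ?_⟩
      rw [List.map_cons, List.map_nil, List.prod_cons, List.prod_nil, mul_one, map_one, mul_one]
      unfold Letter.val
      rw [W.map_id]
  | prod _ _ ih ih' =>
    intro c
    refine W.kunneth_induction (p := fun z => z ∈ Submodule.span W.K {c | IsMono P _ c}) ?_ ?_ c
    · intro a b ha hb
      exact Submodule.add_mem _ ha hb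
    · intro i j a _ b _
      exact span_mul hP (span_map _ (ih a)) (span_map _ (ih' b))

end Pool.Agent.W40.MF
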